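import Mathlib

set_option autoImplicit false

namespace Pool.Agent.Z26.AM.H.MP_911b3a_co

open Finset Classical

lemma rk1 (O : Finset ℕ) (g : ℕ → ℤ) :
    ∑ p ∈ O, g (O.filter (fun q => q ≤ p)).card = ∑ j ∈ range O.card, g (j + 1) := by
  induction O using Finset.induction_on_max with
  | empty => simp
  | insert a s h ih =>
    have ha : a ∉ s := fun g => lt_irrefl _ (h a g)
    rw [sum_insert ha, card_insert_of_notMem ha, sum_range_succ, ← ih, add_comm]
    congr 1
    · refine sum_congr rfl fun p hp => ?_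
      rw [filter_insert, if_neg (not_le.2 (h p hp))]
    · rw [filter_true_of_mem, card_insert_of_notMem ha]
      intro q hq
      rcases mem_insert.1 hq with rfl | hq
      · exact le_rfl
      · exact (h q hq).le

lemma rk0 (O : Finset ℕ) (p : ℕ) :
    (O.filter (fun q => q ≤ p)).card + (O.filter (fun q => p < q)).card = O.card := by
  rw [← card_filter_add_card_filter_not (s := O) (fun q => q ≤ p)]
  simp only [not_le]

lemma rk2 (O : Finset ℕ) (g : ℕ → ℤ) :
    ∑ p ∈ O, g (O.filter (fun q => p < q)).card = ∑ j ∈ range O.card, g j := by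
  rw [← sum_range_reflect, sum_congr rfl (s₁ := range O.card) (g := fun j => g (O.card - (j + 1)))
    (fun j _ => by congr 1; omega), ← rk1 O (fun j => g (O.card - j))]
  refine sum_congr rfl fun p _ => ?_
  have := rk0 O p
  congr 1; omega

lemma split (R : ℕ → Prop) [DecidablePred R] {p n : ℕ} (hp : p ≤ n) :
    ((range (n + 1 + 1)).filter R).card =
    ((range (n + 1)).filter (fun q => q ≤ p ∧ R q)).card + (if R (p + 1) then 1 else 0) +
    ((range (n + 1)).filter (fun q => p < q ∧ R (q + 1))).card := by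
  simp only [card_filter]
  induction n, hp using Nat.le_induction with
  | base =>
    rw [sum_range_succ, sum_eq_zero (s := range (p + 1)) (f := fun q => if p < q ∧ R (q + 1) then 1 else 0)
      (fun q hq => if_neg (by rw [mem_range] at hq; omega)), add_zero]
    congr 1
    refine sum_congr rfl fun q hq => if_congr ?_ rfl rfl
    rw [mem_range] at hq
    exact ⟨fun h => ⟨by omega, h⟩, fun h => h.2⟩
  | succ n hp ih =>
    rw [sum_range_succ, ih, sum_range_succ _ (n + 1), sum_range_succ _ (n + 1),
      if_neg (c := n + 1 ≤ p ∧ R (n + 1)) (by omega)]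
    have : (p < n + 1 ∧ R (n + 1 + 1)) ↔ R (n + 2) := ⟨fun h => h.2, fun h => ⟨by omega, h⟩⟩
    simp only [this]
    ring

def insF (w : ℕ → ℕ) (p m : ℕ) : ℕ → ℕ := fun i => if i < p then w i else if i = p then m else w (i - 1)

lemma ins_lo {w : ℕ → ℕ} {p m i : ℕ} (h : i < p) : insF w p m i = w i := if_pos h
lemma ins_eq (w : ℕ → ℕ) (p m : ℕ) : insF w p m p = m := by simp [insF]
lemma ins_hi {w : ℕ → ℕ} {p m i : ℕ} (h : p ≤ i) : insF w p m (i + 1) = w i := by
  simp only [insF]; rw [if_neg (by omega), if_neg (by omega)]; rfl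

def up (p i : ℕ) : ℕ := if i < p then i else i + 1

lemma up_c (p i : ℕ) : (i < p ∧ up p i = i) ∨ (p ≤ i ∧ up p i = i + 1) := by
  unfold up; split_ifs <;> omega

lemma ins_up (w : ℕ → ℕ) (p m i : ℕ) : insF w p m (up p i) = w i := by
  rcases up_c p i with ⟨h, e⟩ | ⟨h, e⟩ <;> rw [e]
  · exact ins_lo h
  · exact ins_hi h

lemma up_or (p i : ℕ) : i = p ∨ ∃ j, i = up p j := by
  rcases lt_trichotomy i p with h | h | h
  · exact Or.inr ⟨i, by have := up_c p i; omega⟩
  · exact Or.inl h
  · exact Or.inr ⟨i - 1, by have := up_c p (i - 1); omega⟩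

def opn (S : ℕ → Prop) (w : ℕ → ℕ) (q : ℕ) : Prop := ∀ i, q = i + 1 → ¬ S (w i)

def DS (S : ℕ → Prop) (n : ℕ) (w : ℕ → ℕ) : Prop :=
  ∀ i < n, S (w i) → i + 1 < n ∧ w (i + 1) < w i

section
variable {S : ℕ → Prop} {w : ℕ → ℕ} {n p : ℕ}

lemma DS_ins (hw : ∀ i < n, w i < n) (hp : p ≤ n) :
    DS S (n + 1) (insF w p n) ↔ DS S n w ∧ opn S w p ∧ (S n → p < n) := by
  constructor
  · intro h
    have h0 : opn S w p := by
      intro i hi hS
      have := h i (by omega) (by rwa [ins_lo (by omega)])
      rw [← hi, ins_eq, ins_lo (by omega)] at this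
      have := hw i (by omega)
      omega
    refine ⟨fun i hi hS => ?_, h0, fun hS => ?_⟩
    · rcases lt_trichotomy (i + 1) p with g | g | g
      · have := h i (by omega) (by rwa [ins_lo (by omega)])
        rw [ins_lo g, ins_lo (by omega)] at this
        omega
      · exact absurd hS (h0 i g.symm)
      · have := h (i + 1) (by omega) (by rwa [ins_hi (by omega)])
        rw [ins_hi (by omega), ins_hi (by omega)] at this
        omega
    · have := h p (by omega) (by rwa [ins_eq])
      omega
  · rintro ⟨h1, h2, h3⟩ i hi hS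
    rcases lt_trichotomy i p with g | g | g
    · rw [ins_lo g] at hS ⊢
      have g1 : i + 1 < p := by
        by_contra g1
        exact h2 i (by omega) hS
      rw [ins_lo g1]
      have := h1 i (by omega) hS
      omega
    · subst g
      rw [ins_eq] at hS ⊢
      have := h3 hS
      rw [ins_hi le_rfl]
      have := hw i this
      omega
    · obtain ⟨i, rfl⟩ : ∃ j, i = j + 1 := ⟨i - 1, by omega⟩
      rw [ins_hi (by omega)] at hS ⊢
      rw [ins_hi (by omega)]
      have := h1 i (by omega) hS
      omega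

lemma opn_lo {q : ℕ} (h : q ≤ p) : opn S (insF w p n) q ↔ opn S w q := by
  refine forall_congr' fun i => forall_congr' fun hi => ?_
  rw [ins_lo (by omega)]

lemma opn_eq : opn S (insF w p n) (p + 1) ↔ ¬ S n := by
  constructor
  · intro h; simpa [ins_eq] using h p rfl
  · intro h i hi
    obtain rfl : i = p := by omega
    rwa [ins_eq]

lemma opn_hi {q : ℕ} (h : p < q) : opn S (insF w p n) (q + 1) ↔ opn S w q := by
  obtain ⟨q, rfl⟩ : ∃ j, q = j + 1 := ⟨q - 1, by omega⟩
  constructor
  · intro g i hi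
    obtain rfl : i = q := by omega
    simpa [ins_hi (show p ≤ i by omega)] using g (i + 1) rfl
  · intro g i hi
    obtain rfl : i = q + 1 := by omega
    rw [ins_hi (by omega)]
    exact g q rfl

lemma opn_end (h : DS S n w) : opn S w n := by
  intro i hi hS
  have := h i (by omega) hS
  omega

end

def T (e : ℕ) (φ : ℕ → ℕ → ℤ) (l k : ℕ) : ℤ :=
  ∑ j ∈ range l, φ (j + 1 + e) (k + l - (j + 1)) + ∑ i ∈ range k, φ l (i + e) -
    (if e = 0 then φ l 0 else 0)

lemma sum_allowed (S : ℕ → Prop) (n : ℕ) (R1 R2 R : ℕ → Prop) [DecidablePred R1] [DecidablePred R2]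
    [DecidablePred R] (g : ℕ → ℤ)
    (h : ∀ p, R p ↔ R1 p ∨ R2 p) (h' : ∀ p, R1 p → ¬ R2 p) (hn : R n) :
    ∑ p ∈ range (n + 1), (if R p ∧ (S n → p < n) then g p else 0) =
      ∑ p ∈ (range (n + 1)).filter R1, g p + ∑ p ∈ (range (n + 1)).filter R2, g p -
        if S n then g n else 0 := by
  rw [sum_filter, sum_filter, ← sum_add_distrib]
  have e : ∀ p, ((if R1 p then g p else 0) + if R2 p then g p else 0) = if R p then g p else 0 := by
    intro p
    have := h p; have := h' p
    by_cases a : R1 p <;> by_cases b : R2 p <;> simp_all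
  simp only [e]
  rw [sum_range_succ, sum_range_succ, if_pos hn, sum_congr rfl (g := fun p => if R p then g p else 0)
    (fun p hp => if_congr (by rw [mem_range] at hp; exact ⟨fun h => h.1, fun h => ⟨h, fun _ => hp⟩⟩)
      rfl rfl)]
  by_cases a : S n <;> simp [a, hn]

end Pool.Agent.Z26.AM.H.MP_911b3a_co
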